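import Pool.Agent.Helper17.QD.Glue
import Pool.Agent.Helper35.PQF.St3

/-! # Project QD, glue: module MOV -/

set_option autoImplicit false

open Filter Topology Matrix Set Metric MeasureTheory
open scoped ComplexConjugate ComplexOrder ENNReal

namespace Pool.Agent.Helper22.QL

open Pool.Agent.Helper17.QD Pool.Agent.Helper35.PM
open Pool.Agent.Helper68.QC (nq Bel InvB Intw)
open Pool.Agent.Helper20.QD (Fuch cj IsSU D DD SS dz dzb mob den)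

private theorem cj_apply {Γ : Type} [Group Γ] (M : SL) (ρ : Γ →* SL) (γ : Γ) :
    cj M ρ γ = M * ρ γ * M⁻¹ := rfl

private theorem cj_inv {Γ : Type} [Group Γ] (M : SL) (ρ : Γ →* SL) : cj M⁻¹ (cj M ρ) = ρ := by
  ext1 γ
  rw [cj_apply, cj_apply]
  group

theorem hMOV (hSUB : Pool.Agent.Helper20.QD.StSUB) (hNRM : StNRM) (hMVD : StMVD)
    (hMVS : StMVS) (hNBC : StNBC) (hSY : St_SY) : StMOV := by
  intro k0 hk0 hk1
  obtain ⟨C, hC, hM⟩ := hMVD k0 hk0 hk1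
  refine ⟨C, hC, ?_⟩
  intro g hg U hU σ s1 ρ μ k E hS hs1 hE hCnj
  obtain ⟨N, κ, hN, hκ, hinv, hint, h1, h2⟩ :=
    hNRM (SurfaceGroup g) σ s1 k0 E hk0 hk1 hS.fs hs1 hE hCnj
  obtain ⟨ρ', hρ', hd⟩ := hM g hg U hU σ ρ μ κ k hS hκ hinv
  obtain ⟨μ', k', hS'⟩ := hMVS (SurfaceGroup g) σ s1 ρ ρ' μ κ k k0 N hk0 hk1 hS hs1 hN hκ hint
    h1 h2 hρ'
  obtain ⟨μ'', M, hS''⟩ := hNBC (SurfaceGroup g) (cj N s1) ρ' μ' k' N⁻¹ hS' (hSUB.1 N hN).1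
  rw [cj_inv] at hS''
  refine ⟨μ'', k', cj M ρ', hS'', ?_⟩
  have h3 : pressureDist U ρ' (cj M ρ') ≤ 0 := by
    apply sInf_le
    exact PressureLE.conj ρ' (cj M ρ') M (fun γ => Or.inl rfl)
  calc pressureDist U ρ (cj M ρ') ≤ pressureDist U ρ ρ' + pressureDist U ρ' (cj M ρ') :=
        (hSY (SurfaceGroup g) U).2 ρ ρ' (cj M ρ')
    _ ≤ ENNReal.ofReal C + 0 := add_le_add hd h3
    _ = ENNReal.ofReal C := add_zero _

end Pool.Agent.Helper22.QL
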