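import Pool.Agent.Helper17.QD.Glue

/-! # Project QD, glue: module QFS -/

set_option autoImplicit false

open Filter Topology Matrix Set Metric MeasureTheory
open scoped ComplexConjugate ComplexOrder ENNReal

namespace Pool.Agent.Helper22.QL

open Pool.Agent.Helper17.QD Pool.Agent.Helper35.PM

theorem hQFS (hFAI : StFAI) (hTQF : Pool.Agent.Helper86.QA.StTQF)
    (hTFR : Pool.Agent.Helper86.QA.StTFR) : StQFS := by
  intro g σ ρ w hf hw hint
  apply hTQF (SurfaceGroup g) σ ρ w
  · refine ⟨hf, hw, fun γ z => ?_⟩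
    obtain ⟨h1, h2, -, -⟩ := hint γ
    exact ⟨h1 z, h2 z⟩
  · exact hFAI (SurfaceGroup g) σ hf (hTFR g)

end Pool.Agent.Helper22.QL
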